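import Pool.Agent.P8H50.NK.Stm
import Pool.Agent.P8H10.GC5

/-! # Project NK, package EXP: composition with the exponential -/

set_option autoImplicit false

namespace Pool.Agent.P8H54.NK

open MeasureTheory Set Filter Topology Metric Real ValueDistribution MeromorphicOn
open Pool.Agent.P8H50.NK
open Pool.Agent.Helper160.Nev (circleAverage_mono_codiscrete)
open Pool.Agent.H159R3.NV (L mero_of_diff ci_log ne_cod)
open Pool.Agent.P8H10.GC (cx cx_diff cx_order growth_of_zeros)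

lemma lf_diff {n : ℕ} {f : Fin n → ℂ → ℂ} (hf : ∀ i, Differentiable ℂ (f i)) (b : Fin n → ℂ) :
    Differentiable ℂ (lf b f) := by
  have : lf b f = fun z => ∑ i, b i * f i z := rfl
  rw [this]
  exact Differentiable.fun_sum fun i _ => (hf i).const_mul _

lemma lf_le {n : ℕ} (b : Fin n → ℂ) (f : Fin n → ℂ → ℂ) (z : ℂ) :
    ‖lf b f z‖ ≤ (∑ i, ‖b i‖) * nm f z := by
  unfold lf nm
  refine (norm_sum_le _ _).trans ?_
  rw [Finset.sum_mul]
  refine Finset.sum_le_sum fun i _ => ?_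
  rw [norm_mul]
  exact mul_le_mul_of_nonneg_left (norm_le_pi_norm (fun i => f i z) i) (norm_nonneg _)

lemma nm_pos' {n : ℕ} {f : Fin n → ℂ → ℂ} (hf : ∀ z, ∃ i, f i z ≠ 0) (z : ℂ) : 0 < nm f z := by
  unfold nm
  rw [norm_pos_iff]
  intro h
  obtain ⟨i, hi⟩ := hf z
  exact hi (congrFun h i)

lemma nm_cont {n : ℕ} {f : Fin n → ℂ → ℂ} (hf : ∀ i, Differentiable ℂ (f i)) : Continuous (nm f) := by
  unfold nm
  exact (continuous_pi fun i => (hf i).continuous).norm

lemma nm_ci' {n : ℕ} {f : Fin n → ℂ → ℂ} (hf : Crv f) (r : ℝ) :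
    CircleIntegrable (fun z => Real.log (nm f z)) 0 r := by
  apply ContinuousOn.circleIntegrable'
  apply ContinuousOn.log
  · exact (nm_cont hf.diff).continuousOn
  · intro z _
    exact (nm_pos' hf.nz z).ne'

lemma lup {n : ℕ} {f : Fin n → ℂ → ℂ} (hf : Crv f) (b : Fin n → ℂ) (hb : ∃ z, lf b f z ≠ 0) :
    ∃ B : ℝ, 0 ≤ B ∧ ∀ r, 1 ≤ r → L (lf b f) r ≤ tau f r + B := by
  set C : ℝ := 1 + ∑ i, ‖b i‖ with hC
  have hC1 : 1 ≤ C := by
    have : 0 ≤ ∑ i, ‖b i‖ := Finset.sum_nonneg fun i _ => norm_nonneg _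
    linarith
  have hCp : 0 < C := by linarith
  refine ⟨Real.log C, Real.log_nonneg hC1, fun r hr => ?_⟩
  have hr0 : r ≠ 0 := by linarith
  have i3 := nm_ci' hf r
  have i4 : CircleIntegrable (fun _ : ℂ => Real.log C) 0 r := circleIntegrable_const _ _ _
  have e2 : tau f r + Real.log C = circleAverage (fun z => Real.log (nm f z) + Real.log C) 0 r := by
    rw [circleAverage_fun_add i3 i4, circleAverage_const]
    rfl
  rw [e2]
  refine circleAverage_mono_codiscrete hr0 (ci_log (mero_of_diff (lf_diff hf.diff b)) r) (i3.add i4) ?_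
  obtain ⟨w, hw⟩ := hb
  filter_upwards [ne_cod (lf_diff hf.diff b) hw r] with z hz
  have hn := nm_pos' hf.nz z
  rw [← Real.log_mul hn.ne' hCp.ne', mul_comm (nm f z) C]
  refine Real.log_le_log (norm_pos_iff.2 hz) ((lf_le b f z).trans ?_)
  apply mul_le_mul_of_nonneg_right _ hn.le
  linarith

lemma lf_cx {n : ℕ} (b : Fin n → ℂ) (f : Fin n → ℂ → ℂ) :
    lf b (fun i z => f i (Complex.exp z)) = cx (lf b f) := rfl

lemma cx_ne {g : ℂ → ℂ} (hg : Continuous g) (h : ∃ z, g z ≠ 0) : ∃ z, cx g z ≠ 0 := by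
  by_contra hcon
  push Not at hcon
  obtain ⟨z, hz⟩ := h
  have h3 : g = fun _ => (0 : ℂ) := by
    refine Continuous.ext_on (s := {0}ᶜ) (dense_compl_singleton 0) hg continuous_const ?_
    intro w hw
    have h2 := hcon (Complex.log w)
    unfold cx at h2
    rw [Complex.exp_log hw] at h2
    exact h2
  exact hz (by rw [h3])

theorem exp : S_EXP := by
  intro n f hf
  have hcrv : Crv (fun i z => f i (Complex.exp z)) := by
    refine ⟨fun i => (hf.diff i).comp Complex.differentiable_exp, fun z => hf.nz _, fun c hc => ?_⟩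
    apply hf.ind
    by_contra hcon
    push Not at hcon
    obtain ⟨w, hw⟩ := cx_ne (lf_diff hf.diff c).continuous hcon
    exact hw (hc w)
  refine ⟨hcrv, fun b z => cx_order (f := lf b f) z, fun b hb => cx_ne (lf_diff hf.diff b).continuous hb, fun hn => ?_⟩
  -- a form vanishing at f 1
  obtain ⟨c, hc0, hc1⟩ : ∃ c : Fin n → ℂ, c ≠ 0 ∧ lf c f 1 = 0 := by
    set φ : (Fin n → ℂ) →ₗ[ℂ] ℂ := ∑ i, (f i 1) • LinearMap.proj i with hφ
    have h1 : LinearMap.ker φ ≠ ⊥ := by
      apply LinearMap.ker_ne_bot_of_finrank_lt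
      rw [Module.finrank_self, Module.finrank_pi, Fintype.card_fin]
      omega
    obtain ⟨c, hc, hc0⟩ := (Submodule.ne_bot_iff _).1 h1
    refine ⟨c, hc0, ?_⟩
    have h2 : φ c = 0 := hc
    rw [hφ] at h2
    simp only [LinearMap.sum_apply, LinearMap.smul_apply, LinearMap.proj_apply, smul_eq_mul] at h2
    unfold lf
    rw [← h2]
    exact Finset.sum_congr rfl fun i _ => mul_comm _ _
  have hne : ∃ z, lf c f z ≠ 0 := by
    by_contra hcon
    push Not at hcon
    exact hc0 (hf.ind c hcon)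
  have hne' := cx_ne (lf_diff hf.diff c).continuous hne
  obtain ⟨ε, C, hε, hg⟩ := growth_of_zeros (cx_diff (lf_diff hf.diff c)) hne' (fun k => by
    unfold cx
    rw [Complex.exp_nat_mul_two_pi_mul_I k]
    exact hc1)
  obtain ⟨B, hB, hLU⟩ := lup hcrv c hne'
  refine ⟨ε, C + B, hε, fun r hr => ?_⟩
  have h1 := hg r hr
  have h2 := hLU r hr
  rw [lf_cx] at h2
  linarith

end Pool.Agent.P8H54.NK
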