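import Pool.Agent.P8H50.NK.Stm
import Pool.Agent.P8H54.NK.Exp

/-! # Project NK, package COR: the core estimate -/

set_option autoImplicit false

namespace Pool.Agent.P8H54.NK

open MeasureTheory Set Filter Topology Metric Real ValueDistribution MeromorphicOn
open Pool.Agent.P8H50.NK
open Pool.Agent.H159R3.NV (L mero_of_diff ci_log ne_cod)
open Pool.Agent.P8H10.GC (log_le')

theorem cor (hWRN : S_WRN) (hSMT : S_SMT) (hLUP : S_LUP) (hORD : S_ORD) (hDIV : S_DIV) : S_COR := by
  classical
  intro s n q M ω e m c f hWts hCrv hne hc he hcm hce hmult i0 hgrow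
  have hwd : ∀ i, Differentiable ℂ (wr (f i)) := fun i => (hWRN (n i) (f i) (hCrv i)).1
  have hwne : ∀ i, ∃ z, wr (f i) z ≠ 0 := fun i => (hWRN (n i) (f i) (hCrv i)).2
  have hud : ∀ i j, Differentiable ℂ (lf (M i j) (f i)) := fun i j => lf_diff (hCrv i).diff _
  -- the divisor inequality
  obtain ⟨C0, hC0⟩ := hDIV (Fin s ⊕ (Σ i, Fin (q i)))
    (Sum.elim (fun i => wr (f i)) fun p => lf (M p.1 p.2) (f p.1))
    (by rintro (i | p); exacts [hwd i, hud p.1 p.2])
    (by rintro (i | p); exacts [hwne i, hne p.1 p.2])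
    (Sum.elim c fun p => (e p.1 p.2 : ℝ) - c p.1 * ω p.1 p.2) (by
      intro z
      rw [Fintype.sum_sum_type, Fintype.sum_sigma]
      simp only [Sum.elim_inl, Sum.elim_inr]
      have hsum : ∑ i, c i * (analyticOrderNatAt (wr (f i)) z : ℝ) +
          ∑ i, ∑ j, ((e i j : ℝ) - c i * ω i j) * (analyticOrderNatAt (lf (M i j) (f i)) z : ℝ) =
          ∑ i, c i * ((analyticOrderNatAt (wr (f i)) z : ℝ) -
            ∑ j, ω i j * (analyticOrderNatAt (lf (M i j) (f i)) z : ℝ)) +
          ∑ i, ∑ j, (e i j : ℝ) * (analyticOrderNatAt (lf (M i j) (f i)) z : ℝ) := by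
        rw [← Finset.sum_add_distrib, ← Finset.sum_add_distrib]
        refine Finset.sum_congr rfl fun i _ => ?_
        rw [mul_sub, Finset.mul_sum]
        simp only [sub_mul, Finset.sum_sub_distrib]
        have : ∑ j, c i * ω i j * (analyticOrderNatAt (lf (M i j) (f i)) z : ℝ) =
            ∑ j, c i * (ω i j * (analyticOrderNatAt (lf (M i j) (f i)) z : ℝ)) :=
          Finset.sum_congr rfl fun j _ => by ring
        rw [this]
        ring
      rw [hsum]
      have hO := fun i => hORD (n i) (q i) (M i) (ω i) (hWts i) (f i) (hCrv i) (hne i) z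
      rcases hmult z with h | h
      · have h2 : ∀ i j, analyticOrderNatAt (lf (M i j) (f i)) z = 0 := by
          intro i j
          have h3 := (Finset.sum_eq_zero_iff.1 h) i (Finset.mem_univ i)
          have h4 := (Finset.sum_eq_zero_iff.1 h3) j (Finset.mem_univ j)
          rcases Nat.mul_eq_zero.1 h4 with h5 | h5
          · have := he i j; omega
          · exact h5
        simp only [h2, Nat.cast_zero, mul_zero, Finset.sum_const_zero, sub_zero, add_zero]
        exact Finset.sum_nonneg fun i _ => mul_nonneg (hc i) (Nat.cast_nonneg _)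
      · have h1 : -(m : ℝ) ≤ ∑ i, c i * ((analyticOrderNatAt (wr (f i)) z : ℝ) -
            ∑ j, ω i j * (analyticOrderNatAt (lf (M i j) (f i)) z : ℝ)) := by
          have h2 : ∑ i, -(c i * ((n i : ℝ) * (n i - 1) / 2)) ≤
              ∑ i, c i * ((analyticOrderNatAt (wr (f i)) z : ℝ) -
                ∑ j, ω i j * (analyticOrderNatAt (lf (M i j) (f i)) z : ℝ)) := by
            refine Finset.sum_le_sum fun i _ => ?_
            have h3 := (hO i).2
            rw [← mul_neg]
            apply mul_le_mul_of_nonneg_left _ (hc i)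
            linarith
          rw [Finset.sum_neg_distrib] at h2
          linarith
        have h4 : (m : ℝ) ≤ ∑ i, ∑ j, (e i j : ℝ) * (analyticOrderNatAt (lf (M i j) (f i)) z : ℝ) := by
          have : ((m : ℕ) : ℝ) ≤ ((∑ i, ∑ j, e i j * analyticOrderNatAt (lf (M i j) (f i)) z : ℕ) : ℝ) := by
            exact_mod_cast h
          push_cast at this
          exact this
        linarith)
  have hC0' : ∀ r : ℝ, 1 ≤ r → C0 ≤ ∑ i, (c i * L (wr (f i)) r +
      ∑ j, ((e i j : ℝ) - c i * ω i j) * L (lf (M i j) (f i)) r) := by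
    intro r hr
    have := hC0 r hr
    rw [Fintype.sum_sum_type, Fintype.sum_sigma, ← Finset.sum_add_distrib] at this
    simp only [Sum.elim_inl, Sum.elim_inr] at this
    exact this
  choose E C hE hC hsmt using fun i => hSMT (n i) (q i) (M i) (ω i) (hWts i) (f i) (hCrv i) (hne i)
  choose B hB hLU using fun i j => hLUP (n i) (f i) (hCrv i) (M i j) (hne i j)
  set δ : Fin s → ℝ := fun i => c i * (∑ j, ω i j - n i) - ∑ j, (e i j : ℝ) with hδ
  have hδ0 : ∀ i, 0 < δ i := fun i => by simp only [hδ]; linarith [hce i]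
  -- logarithms
  choose K1 hK1 hK1' using fun i => log_le' (M := c i * C i) (η := δ i / 2)
    (mul_nonneg (hc i) (hC i)) (by have := hδ0 i; positivity)
  obtain ⟨ε, Cg, hε, hg⟩ := hgrow
  have hδi0 := hδ0 i0
  obtain ⟨K2, hK2, hK2'⟩ := log_le' (M := ∑ i, c i * C i) (η := ε * δ i0 / 4)
    (Finset.sum_nonneg fun i _ => mul_nonneg (hc i) (hC i)) (by positivity)
  -- the final inequality
  set A : Fin s → ℝ := fun i => δ i * C i + δ i / 2 + K1 i + c i * C i + ∑ j, (e i j : ℝ) * B i j with hA
  have hfin : ∀ r, 1 ≤ r → (∀ i, r ∉ E i) →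
      (δ i0 / 2) * (tau (f i0) r + C i0) ≤ (ε * δ i0 / 4) * r + (K2 + ∑ i, A i - C0) := by
    intro r hr hrE
    have ht : ∀ i, 0 ≤ tau (f i) r + C i := fun i => (hsmt i r hr (hrE i)).1
    have hj : ∀ i, c i * L (wr (f i)) r + ∑ j, ((e i j : ℝ) - c i * ω i j) * L (lf (M i j) (f i)) r ≤
        - ((δ i / 2) * (tau (f i) r + C i)) + c i * C i * Real.log r + A i := by
      intro i
      have h1 := (hsmt i r hr (hrE i)).2
      have h2 := mul_le_mul_of_nonneg_left h1 (hc i)
      have h3 : ∑ j, (e i j : ℝ) * L (lf (M i j) (f i)) r ≤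
          (∑ j, (e i j : ℝ)) * tau (f i) r + ∑ j, (e i j : ℝ) * B i j := by
        rw [Finset.sum_mul, ← Finset.sum_add_distrib]
        refine Finset.sum_le_sum fun j _ => ?_
        rw [← mul_add]
        exact mul_le_mul_of_nonneg_left (hLU i j r hr) (Nat.cast_nonneg _)
      have h4 : ∑ j, ((e i j : ℝ) - c i * ω i j) * L (lf (M i j) (f i)) r =
          ∑ j, (e i j : ℝ) * L (lf (M i j) (f i)) r - c i * ∑ j, ω i j * L (lf (M i j) (f i)) r := by
        simp only [sub_mul, Finset.sum_sub_distrib, Finset.mul_sum]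
        congr 1
        exact Finset.sum_congr rfl fun j _ => by ring
      have h5 : c i * C i * Real.log (1 + C i + tau (f i) r) ≤
          (δ i / 2) * (1 + C i + tau (f i) r) + K1 i := hK1' i _ (by have := ht i; linarith)
      have h6 : c i * (∑ j, ω i j - n i) = δ i + ∑ j, (e i j : ℝ) := by simp only [hδ]; ring
      rw [h4]
      have h7 : c i * (L (wr (f i)) r + (∑ j, ω i j - n i) * tau (f i) r) =
          c i * L (wr (f i)) r + (c i * (∑ j, ω i j - n i)) * tau (f i) r := by ring
      rw [h7, h6] at h2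
      have h8 : c i * (∑ j, ω i j * L (lf (M i j) (f i)) r + C i * (1 + Real.log r +
          Real.log (1 + C i + tau (f i) r))) = c i * ∑ j, ω i j * L (lf (M i j) (f i)) r +
          (c i * C i + c i * C i * Real.log r + c i * C i * Real.log (1 + C i + tau (f i) r)) := by ring
      rw [h8] at h2
      simp only [hA]
      linarith
    have hsum := (hC0' r hr).trans (Finset.sum_le_sum fun i _ => hj i)
    rw [Finset.sum_add_distrib, Finset.sum_add_distrib, ← Finset.sum_mul, Finset.sum_neg_distrib] at hsum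
    have h10 : (δ i0 / 2) * (tau (f i0) r + C i0) ≤ ∑ i, (δ i / 2) * (tau (f i) r + C i) :=
      Finset.single_le_sum (f := fun i => (δ i / 2) * (tau (f i) r + C i))
        (fun i _ => mul_nonneg (by have := hδ0 i; positivity) (ht i)) (Finset.mem_univ i0)
    have h11 := hK2' r (by linarith)
    linarith
  -- a large radius outside the exceptional set
  set K : ℝ := K2 + ∑ i, A i - C0 + (δ i0 / 2) * (Cg - C i0) with hK
  set R0 : ℝ := max 1 (K * (4 / (ε * δ i0)) + 1) with hR0
  obtain ⟨r, hr, hrE⟩ : ∃ r, R0 ≤ r ∧ ∀ i, r ∉ E i := by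
    by_contra hcon
    push Not at hcon
    have h1 : Ici R0 ⊆ ⋃ i, E i := by
      intro r hr
      obtain ⟨i, hi⟩ := hcon r hr
      exact mem_iUnion.2 ⟨i, hi⟩
    have h2 : volume (⋃ i, E i) < ⊤ := by
      refine lt_of_le_of_lt (measure_iUnion_fintype_le volume E) ?_
      exact ENNReal.sum_lt_top.2 fun l _ => hE l
    have h3 := measure_mono (μ := volume) h1
    rw [Real.volume_Ici] at h3
    exact absurd (lt_of_le_of_lt h3 h2) (lt_irrefl _)
  have hr1 : 1 ≤ r := (le_max_left _ _).trans hr
  have h1 := hfin r hr1 hrE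
  have h2 := hg r hr1
  have h3 : K * (4 / (ε * δ i0)) + 1 ≤ r := (le_max_right _ _).trans hr
  have h4 : K < (ε * δ i0 / 4) * r := by
    have h5 : K * (4 / (ε * δ i0)) < r := by linarith
    rw [← lt_div_iff₀ (by positivity)] at h5
    have e1 : r / (4 / (ε * δ i0)) = (ε * δ i0 / 4) * r := by field_simp
    rw [e1] at h5
    exact h5
  have h6 : (δ i0 / 2) * (ε * r - Cg + C i0) ≤ (δ i0 / 2) * (tau (f i0) r + C i0) :=
    mul_le_mul_of_nonneg_left (by linarith) (by positivity)
  have h7 : (δ i0 / 2) * (ε * r - Cg + C i0) = 2 * ((ε * δ i0 / 4) * r) - (δ i0 / 2) * (Cg - C i0) := by ring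
  rw [h7] at h6
  linarith

end Pool.Agent.P8H54.NK
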