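import Pool.Agent.P8H50.NK.Stm
import Pool.Agent.P8H54.NK.Exp

/-! # Project NK, package CUR: entire curves in products of projective spaces -/

set_option autoImplicit false

namespace Pool.Agent.P8H54.NK

open MeasureTheory Set Filter Topology Metric Real ValueDistribution MeromorphicOn
open Pool.Agent.P8H50.NK
open Pool.Agent.H159R3.NV (L mero_of_diff ci_log ne_cod)

lemma ord_one {k : ℕ} (hk : k = 1) {f : Fin k → ℂ → ℂ} (hf : Crv f) (b : Fin k → ℂ)
    (hb : ∃ z, lf b f z ≠ 0) (w : ℂ) : analyticOrderNatAt (lf b f) w = 0 := by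
  subst hk
  have h1 : ∀ z, lf b f z = b 0 * f 0 z := fun z => by unfold lf; simp
  have h2 : ∀ z, f 0 z ≠ 0 := by
    intro z
    obtain ⟨i, hi⟩ := hf.nz z
    rwa [Subsingleton.elim i 0] at hi
  have h3 : b 0 ≠ 0 := by
    obtain ⟨z, hz⟩ := hb
    intro h
    apply hz
    rw [h1, h, zero_mul]
  have h4 : lf b f w ≠ 0 := by
    rw [h1]
    exact mul_ne_zero h3 (h2 w)
  rw [analyticOrderNatAt, ((lf_diff hf.diff b).analyticAt w).analyticOrderAt_eq_zero.2 h4]
  rfl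

theorem cur (hCOR : S_COR) (hEXP : S_EXP) (hSPN : S_SPN) (hWTS : S_WTS) (hRES : S_RES) : S_CUR := by
  classical
  intro s n q t ℓ e m ρ F hnt hrk he hρ hρm hF hnz hne hmult i0 z0 z1
  by_contra hcon
  choose k f A B hCrv hk1 hkn hFA hBA hk1c using fun i => hSPN (n i) (F i) (hF i) (hnz i)
  have hki0 : 2 ≤ k i0 := by
    by_contra h
    have h1 : k i0 = 1 := by have := hk1 i0; omega
    exact hcon (hk1c i0 h1 z0 z1)
  -- the restricted forms
  obtain ⟨M, hMdef⟩ : ∃ M : ∀ i, Fin (q i) → Fin (k i) → ℂ,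
      M = fun i j l => ∑ a, ℓ i j a * A i a l := ⟨_, rfl⟩
  have hlf : ∀ i j, lf (ℓ i j) (F i) = lf (M i j) (f i) := by
    intro i j
    funext z
    unfold lf
    rw [hMdef]
    simp only [hFA, Finset.mul_sum, Finset.sum_mul]
    rw [Finset.sum_comm]
    refine Finset.sum_congr rfl fun l _ => Finset.sum_congr rfl fun a _ => ?_
    ring
  have hrkM : ∀ i (S : Finset (Fin (q i))), S.card = t i + 1 → rk (M i) S = k i := by
    intro i S hS
    have h1 := hRES (n i) (k i) (q i) (ℓ i) (A i) (B i) (hBA i) S (hrk i S hS)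
    rw [hMdef]
    exact h1
  choose ω hω hωδ using fun i => hWTS (k i) (q i) (t i) (M i) (hk1 i)
    (by have h1 := (hnt i).1; have h2 := hkn i; omega) (hnt i).2 (hrkM i)
  -- the curves composed with exp
  obtain ⟨g, hgdef⟩ : ∃ g : ∀ i, Fin (k i) → ℂ → ℂ, g = fun i l z => f i l (Complex.exp z) := ⟨_, rfl⟩
  have hE : ∀ i, Crv (g i) ∧
      (∀ (b : Fin (k i) → ℂ) (z : ℂ), analyticOrderNatAt (lf b (g i)) z =
        analyticOrderNatAt (lf b (f i)) (Complex.exp z)) ∧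
      (∀ b : Fin (k i) → ℂ, (∃ z, lf b (f i) z ≠ 0) → ∃ z, lf b (g i) z ≠ 0) ∧
      (2 ≤ k i → ∃ ε C : ℝ, 0 < ε ∧ ∀ r, 1 ≤ r → ε * r - C ≤ tau (g i) r) := by
    intro i
    rw [hgdef]
    exact hEXP (k i) (f i) (hCrv i)
  -- numbers
  set θ : Fin s → ℝ := fun i => 2 * (t i : ℝ) - k i + 2 with hθ
  set Se : Fin s → ℝ := fun i => ∑ j, (e i j : ℝ) with hSe
  set δ : Fin s → ℝ := fun i => (k i : ℝ) * (q i - θ i) / θ i with hδ
  have hθ0 : ∀ i, 0 < θ i := by
    intro i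
    have h1 : ((k i : ℕ) : ℝ) ≤ t i + 1 := by
      have h1 := (hnt i).1
      have h2 := hkn i
      exact_mod_cast (by omega : k i ≤ t i + 1)
    have h2 : (0 : ℝ) ≤ t i := Nat.cast_nonneg _
    simp only [hθ]
    linarith
  have hqθ : ∀ i, 2 ≤ k i → 0 < (q i : ℝ) - θ i := by
    intro i hi
    have h1 : (2 : ℝ) ≤ k i := by exact_mod_cast hi
    have h2 : ((2 * t i : ℕ) : ℝ) < q i := by exact_mod_cast (hnt i).2
    push_cast at h2
    simp only [hθ]
    linarith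
  have hδ0 : ∀ i, 2 ≤ k i → 0 < δ i := by
    intro i hi
    have h1 : (2 : ℝ) ≤ k i := by exact_mod_cast hi
    have h2 := hqθ i hi
    have h3 := hθ0 i
    simp only [hδ]
    positivity
  have hSe0 : ∀ i, 0 ≤ Se i := fun i => Finset.sum_nonneg fun j _ => Nat.cast_nonneg _
  have hkk : ∀ i, 0 ≤ (k i : ℝ) * (k i - 1) / 2 := by
    intro i
    have h1 : (1 : ℝ) ≤ k i := by exact_mod_cast hk1 i
    have h2 : 0 ≤ (k i : ℝ) - 1 := by linarith
    positivity
  have hρk : ∀ i, 2 ≤ k i → Se i / δ i * ((k i : ℝ) * (k i - 1) / 2) ≤ ρ i := by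
    intro i hi
    have h1 := (hρ i).2 (k i) hi (hkn i)
    have h2 := hδ0 i hi
    rw [div_mul_eq_mul_div, div_le_iff₀ h2]
    have h3 : ρ i * δ i = ρ i * ((k i : ℝ) * (q i - θ i)) / θ i := by simp only [hδ]; ring
    rw [h3, le_div_iff₀ (hθ0 i)]
    have hk0 : (0 : ℝ) ≤ k i := Nat.cast_nonneg _
    have h4 := mul_le_mul_of_nonneg_left h1 (by positivity : (0 : ℝ) ≤ (k i : ℝ) / 2)
    calc Se i * ((k i : ℝ) * (k i - 1) / 2) * θ i = (k i : ℝ) / 2 *
          (((k i : ℝ) - 1) * (2 * t i - k i + 2) * ∑ j, (e i j : ℝ)) := by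
          simp only [hSe, hθ]; ring
      _ ≤ _ := h4
      _ = _ := by simp only [hθ]; ring
  -- reindexing
  set σ : Fin (Fintype.card {i // 2 ≤ k i}) ≃ {i // 2 ≤ k i} := (Fintype.equivFin _).symm with hσ
  have hsum : ∀ G : Fin s → ℝ, ∑ a, G (σ a).1 = ∑ i ∈ Finset.univ.filter (fun i => 2 ≤ k i), G i := by
    intro G
    rw [Equiv.sum_comp σ (fun x => G x.1)]
    exact (Finset.sum_subtype (Finset.univ.filter (fun i => 2 ≤ k i)) (by simp) G).symm
  have hsumN : ∀ G : Fin s → ℕ, ∑ a, G (σ a).1 = ∑ i ∈ Finset.univ.filter (fun i => 2 ≤ k i), G i := by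
    intro G
    rw [Equiv.sum_comp σ (fun x => G x.1)]
    exact (Finset.sum_subtype (Finset.univ.filter (fun i => 2 ≤ k i)) (by simp) G).symm
  set P : ℝ := (∑ i ∈ Finset.univ.filter (fun i => 2 ≤ k i), (k i : ℝ) * (k i - 1) / 2) + 1 with hP
  have hP0 : 0 < P := by
    have := Finset.sum_nonneg (s := Finset.univ.filter (fun i => 2 ≤ k i))
      (f := fun i => (k i : ℝ) * (k i - 1) / 2) (fun i _ => hkk i)
    linarith
  set η : ℝ := ((m : ℝ) - ∑ i, ρ i) / P with hη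
  have hη0 : 0 < η := div_pos (by linarith) hP0
  have hηP : η * P = (m : ℝ) - ∑ i, ρ i := div_mul_cancel₀ _ hP0.ne'
  refine hCOR (Fintype.card {i // 2 ≤ k i}) (fun a => k (σ a).1) (fun a => q (σ a).1)
    (fun a => M (σ a).1) (fun a => ω (σ a).1) (fun a => e (σ a).1) m
    (fun a => Se (σ a).1 / δ (σ a).1 + η) (fun a => g (σ a).1) (fun a => hω _) (fun a => (hE _).1)
    (fun a j => (hE _).2.2.1 _ (by rw [← hlf]; exact hne _ j)) ?_ (fun a j => he _ j) ?_ ?_ ?_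
    (σ.symm ⟨i0, hki0⟩) ((hE _).2.2.2 (σ (σ.symm ⟨i0, hki0⟩)).2)
  · intro a
    have h1 := hδ0 _ (σ a).2
    have h2 := hSe0 (σ a).1
    positivity
  · have h1 := hsum (fun i => (Se i / δ i + η) * ((k i : ℝ) * (k i - 1) / 2))
    refine (le_of_eq h1).trans ?_
    have h2 : ∑ i ∈ Finset.univ.filter (fun i => 2 ≤ k i), (Se i / δ i + η) * ((k i : ℝ) * (k i - 1) / 2) ≤
        ∑ i ∈ Finset.univ.filter (fun i => 2 ≤ k i), (ρ i + η * ((k i : ℝ) * (k i - 1) / 2)) := by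
      refine Finset.sum_le_sum fun i hi => ?_
      rw [Finset.mem_filter] at hi
      rw [add_mul]
      exact add_le_add (hρk i hi.2) le_rfl
    refine h2.trans ?_
    rw [Finset.sum_add_distrib, ← Finset.mul_sum]
    have h3 : ∑ i ∈ Finset.univ.filter (fun i => 2 ≤ k i), ρ i ≤ ∑ i, ρ i :=
      Finset.sum_le_sum_of_subset_of_nonneg (Finset.filter_subset _ _) fun i _ _ => (hρ i).1
    have h4 : η * ∑ i ∈ Finset.univ.filter (fun i => 2 ≤ k i), (k i : ℝ) * (k i - 1) / 2 ≤ η * P :=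
      mul_le_mul_of_nonneg_left (by rw [hP]; linarith) hη0.le
    linarith
  · intro a
    have h1 := hδ0 _ (σ a).2
    have h2 := hωδ (σ a).1
    have h3 : δ (σ a).1 ≤ ∑ j, ω (σ a).1 j - (k (σ a).1 : ℝ) := h2
    have h4 : 0 < Se (σ a).1 / δ (σ a).1 + η := by
      have := hSe0 (σ a).1
      positivity
    have h5 := mul_le_mul_of_nonneg_left h3 h4.le
    have h6 : (Se (σ a).1 / δ (σ a).1 + η) * δ (σ a).1 = Se (σ a).1 + η * δ (σ a).1 := by
      rw [add_mul, div_mul_cancel₀ _ h1.ne']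
    have h7 : 0 < η * δ (σ a).1 := mul_pos hη0 h1
    have h8 : ∑ j, (e (σ a).1 j : ℝ) = Se (σ a).1 := rfl
    rw [h8]
    linarith
  · intro z
    have h1 : ∑ a, ∑ j, e (σ a).1 j * analyticOrderNatAt (lf (M (σ a).1 j) (g (σ a).1)) z =
        ∑ i, ∑ j, e i j * analyticOrderNatAt (lf (ℓ i j) (F i)) (Complex.exp z) := by
      have h2 := hsumN (fun i => ∑ j, e i j * analyticOrderNatAt (lf (ℓ i j) (F i)) (Complex.exp z))
      have h3 : ∑ a, ∑ j, e (σ a).1 j * analyticOrderNatAt (lf (M (σ a).1 j) (g (σ a).1)) z =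
          ∑ a, ∑ j, e (σ a).1 j * analyticOrderNatAt (lf (ℓ (σ a).1 j) (F (σ a).1)) (Complex.exp z) := by
        refine Finset.sum_congr rfl fun a _ => Finset.sum_congr rfl fun j _ => ?_
        rw [(hE (σ a).1).2.1, hlf]
      rw [h3, h2]
      refine Finset.sum_subset (Finset.filter_subset _ _) fun i _ hi => ?_
      have hi1 : k i = 1 := by
        have h4 := hk1 i
        have h5 : ¬ 2 ≤ k i := fun h => hi (Finset.mem_filter.2 ⟨Finset.mem_univ _, h⟩)
        omega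
      refine Finset.sum_eq_zero fun j _ => ?_
      rw [hlf, ord_one hi1 (hCrv i) (M i j) (by rw [← hlf]; exact hne i j), mul_zero]
    rw [h1]
    exact hmult (Complex.exp z)

end Pool.Agent.P8H54.NK
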