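import Pool.Agent.P8H50.NK.Stm

/-! # Project NK, package DIV: a combination of divisors with real coefficients -/

set_option autoImplicit false

namespace Pool.Agent.P8H54.NK

open MeasureTheory Set Filter Topology Metric Real ValueDistribution MeromorphicOn
open Pool.Agent.P8H50.NK
open Pool.Agent.H159R3.NV (L mero_of_diff ci_log ne_cod)
open Pool.Agent.P8H10.GC (ord_eq)

theorem dv : S_DIV := by
  classical
  intro S _ F hF _ n h
  refine ⟨∑ s, n s * Real.log ‖meromorphicTrailingCoeffAt (F s) 0‖, fun r hr => ?_⟩
  have hr0 : r ≠ 0 := by linarith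
  have hval : ∀ s z, ((divisor (F s) univ z : ℤ) : ℝ) = (analyticOrderNatAt (F s) z : ℝ) := by
    intro s z
    rw [divisor_apply (fun z _ => mero_of_diff (hF s) z) (mem_univ z), ord_eq ((hF s).analyticAt z)]
    simp
  have h3 : ∀ s, Function.locallyFinsuppWithin.logCounting (divisor (F s) univ) r =
      L (F s) r - Real.log ‖meromorphicTrailingCoeffAt (F s) 0‖ := fun s =>
    Function.locallyFinsuppWithin.logCounting_divisor_eq_circleAverage_sub_const (mero_of_diff (hF s)) hr0
  -- a common finite set
  set D : S → Function.locallyFinsupp ℂ ℤ := fun s => divisor (F s) univ with hD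
  have hfin : (⋃ s, ((D s).toClosedBall r).support).Finite := by
    refine Set.finite_iUnion fun s => ?_
    exact ((D s).toClosedBall r).finiteSupport (isCompact_closedBall 0 |r|)
  set T : Finset ℂ := hfin.toFinset with hT
  have h4 : ∀ s, Function.locallyFinsuppWithin.logCounting (D s) r =
      ∑ z ∈ T, ((D s).toClosedBall r z : ℝ) * Real.log (r * ‖z‖⁻¹) + (D s 0 : ℝ) * Real.log r := by
    intro s
    simp only [Function.locallyFinsuppWithin.logCounting, AddMonoidHom.coe_mk, ZeroHom.coe_mk]
    rw [finsum_eq_sum_of_support_subset (s := T)]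
    intro z hz
    rw [hT, Set.Finite.coe_toFinset]
    refine mem_iUnion.2 ⟨s, ?_⟩
    rw [Function.mem_support] at hz ⊢
    intro h0
    apply hz
    rw [h0]
    simp
  have h5 : ∑ s, n s * Function.locallyFinsuppWithin.logCounting (D s) r =
      ∑ z ∈ T, (∑ s, n s * ((D s).toClosedBall r z : ℝ)) * Real.log (r * ‖z‖⁻¹) +
      (∑ s, n s * (D s 0 : ℝ)) * Real.log r := by
    simp only [h4, mul_add, Finset.sum_add_distrib, Finset.mul_sum, Finset.sum_mul]
    rw [Finset.sum_comm]
    congr 1
    · refine Finset.sum_congr rfl fun z _ => Finset.sum_congr rfl fun s _ => ?_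
      ring
    · refine Finset.sum_congr rfl fun s _ => ?_
      ring
  have h6 : 0 ≤ ∑ s, n s * Function.locallyFinsuppWithin.logCounting (D s) r := by
    rw [h5]
    refine add_nonneg (Finset.sum_nonneg fun z hz => ?_) (mul_nonneg ?_ (Real.log_nonneg hr))
    · have hz' : z ∈ closedBall (0 : ℂ) |r| := by
        rw [hT, Set.Finite.mem_toFinset, mem_iUnion] at hz
        obtain ⟨s, hs⟩ := hz
        exact Function.locallyFinsuppWithin.toClosedBall_support_subset_closedBall (D s) hs
      refine mul_nonneg ?_ ?_
      · have h7 : ∑ s, n s * ((D s).toClosedBall r z : ℝ) = ∑ s, n s * (analyticOrderNatAt (F s) z : ℝ) := by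
          refine Finset.sum_congr rfl fun s _ => ?_
          rw [Function.locallyFinsuppWithin.toClosedBall_eval_within _ hz', hD, hval]
        rw [h7]
        exact h z
      · by_cases h0 : z = 0
        · rw [h0]; simp
        · apply Real.log_nonneg
          have hzn : 0 < ‖z‖ := norm_pos_iff.2 h0
          rw [mem_closedBall, dist_zero_right, abs_of_pos (by linarith : (0 : ℝ) < r)] at hz'
          rw [← div_eq_mul_inv, le_div_iff₀ hzn]
          linarith
    · have h7 : ∑ s, n s * (D s 0 : ℝ) = ∑ s, n s * (analyticOrderNatAt (F s) 0 : ℝ) := by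
        refine Finset.sum_congr rfl fun s _ => ?_
        rw [hD, hval]
      rw [h7]
      exact h 0
  have h8 : ∑ s, n s * Function.locallyFinsuppWithin.logCounting (D s) r =
      ∑ s, n s * L (F s) r - ∑ s, n s * Real.log ‖meromorphicTrailingCoeffAt (F s) 0‖ := by
    rw [← Finset.sum_sub_distrib]
    refine Finset.sum_congr rfl fun s _ => ?_
    rw [hD, h3 s]
    ring
  linarith

end Pool.Agent.P8H54.NK
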